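import Mathlib
import Pool.Agent.H30.Hedge.Cusp
import Pool.Agent.H81.HD.Stm
import Pool.Agent.H81.HC.Basic

/-!
# Folds are cuspidal edges (smooth germs)
-/

open Set Filter Topology
open scoped ContDiff

namespace Pool.Agent.H81.HD.T.CUSP

open Pool.Agent.H30.Hedge (H2 H3 V3 Homog Fold hedgehog SingularAt SmoothOnSphere chart_H2 chart_H3
  chart_D1 H2_symm H2_smul_left H2_smul_right H2_add_left grad_eq grad_eq' singular_kernel
  H2_eq H3_eq)
open Pool.Agent.H81.HC (Sm D1 D2 front S_NF)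

noncomputable section

set_option maxSynthPendingDepth 3

lemma sm_linear {E F : Type*} [NormedAddCommGroup E] [NormedSpace ℝ E] [NormedAddCommGroup F]
    [NormedSpace ℝ F] (L : E →L[ℝ] F) (a : E) : Sm (fun x => L x) a := Sm.of_contDiff L.contDiff a

lemma sm_norm {E : Type*} [NormedAddCommGroup E] [NormedSpace ℝ E] {g : E → V3} {a : E}
    (hg : Sm g a) (h0 : g a ≠ 0) : Sm (fun x => ‖g x‖) a := by
  filter_upwards [hg, hg.continuousAt.eventually_ne h0] with x hx hx'
  exact hx.norm ℝ hx'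

lemma sm_inv_smul {E : Type*} [NormedAddCommGroup E] [NormedSpace ℝ E] {g : E → V3} {a : E}
    (hg : Sm g a) (h0 : g a ≠ 0) : Sm (fun x => ‖g x‖⁻¹ • g x) a := by
  filter_upwards [hg, hg.continuousAt.eventually_ne h0] with x hx hx'
  exact ((hx.norm ℝ hx').inv (norm_ne_zero_iff.2 hx')).smul hx

/-- the iterated partial derivatives are the values of the second and third derivative -/
lemma D1D1 {f : ℝ × ℝ → ℝ} (hf : Sm f 0) (v w : ℝ × ℝ) :
    fderiv ℝ (fun x => fderiv ℝ f x w) 0 v = H2 f 0 v w :=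
  (H2_eq hf.fderiv.differentiableAt v w).symm

lemma D3 {f : ℝ × ℝ → ℝ} (hf : Sm f 0) (u v w : ℝ × ℝ) :
    fderiv ℝ (fun x => fderiv ℝ (fun y => fderiv ℝ f y w) x v) 0 u = H3 f 0 u v w := by
  rw [H3_eq hf.fderiv.fderiv.differentiableAt]
  have hev : (fun x => fderiv ℝ (fun y => fderiv ℝ f y w) x v) =ᶠ[𝓝 0] fun z => H2 f z v w := by
    filter_upwards [hf.fderiv.ev_differentiableAt] with x hx
    exact (H2_eq hx v w).symm
  rw [hev.fderiv_eq]

theorem main (hC : S_NF) : S_CUSP := by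
  intro H hH hF u hu hs
  have hu0 : u ≠ 0 := by rintro rfl; simp at hu
  obtain ⟨v, hv0, hvu, hker⟩ := hs
  have hk := singular_kernel hH hu hker
  have hne : ∀ c : ℝ, c • u ≠ v := by
    intro c hc
    rw [← hc, inner_smul_right, real_inner_self_eq_norm_sq, hu] at hvu
    have : c = 0 := by linarith
    rw [this, zero_smul] at hc
    exact hv0 hc.symm
  obtain ⟨h3, w, hw⟩ := hF u hu0 v hne hk
  have hUo : IsOpen ({0}ᶜ : Set V3) := isOpen_compl_singleton
  -- the three vectors are independent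
  have hk' : ∀ z, H2 H u z v = 0 := fun z => by rw [H2_symm hUo hH.s3 hu0]; exact hk z
  have indep : ∀ a b c : ℝ, a • w + b • v = c • u → a = 0 ∧ b = 0 ∧ c = 0 := by
    intro a b c h
    have h1 : H2 H u (a • w + b • v) w = 0 := by
      rw [h, H2_smul_left, hH.euler2 hu0, mul_zero]
    rw [H2_add_left, H2_smul_left, H2_smul_left, hk, mul_zero, add_zero] at h1
    have ha : a = 0 := (mul_eq_zero.1 h1).resolve_right hw
    rw [ha, zero_smul, zero_add] at h
    have hb : b = 0 := by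
      by_contra hb
      apply hne (b⁻¹ * c)
      rw [mul_smul, ← h, smul_smul, inv_mul_cancel₀ hb, one_smul]
    rw [hb, zero_smul] at h
    exact ⟨ha, hb, (smul_eq_zero.1 h.symm).resolve_right hu0⟩
  -- the chart
  set L : ℝ × ℝ →L[ℝ] V3 :=
    (ContinuousLinearMap.fst ℝ ℝ ℝ).smulRight w + (ContinuousLinearMap.snd ℝ ℝ ℝ).smulRight v
    with hL
  have hLv : ∀ y : ℝ × ℝ, L y = y.1 • w + y.2 • v := fun y => by simp [hL]
  set f : ℝ × ℝ → ℝ := fun z => H (u + L z) with hf
  have h00 : u + L 0 ≠ 0 := by rw [map_zero, add_zero]; exact hu0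
  have sL : Sm (fun z : ℝ × ℝ => u + L z) 0 := (Sm.const u 0).add (sm_linear L 0)
  have hsm : Sm f 0 := Sm.comp (Sm.of_contDiffOn hUo hH.smooth h00) sL
  have eu : u + L 0 = u := by rw [map_zero, add_zero]
  have L10 : L (1, 0) = w := by rw [hLv]; simp
  have L01 : L (0, 1) = v := by rw [hLv]; simp
  obtain ⟨φ, ψ, c1, c2, c3, c4, c5, c6⟩ := hC f hsm
    (by
      have e : D1 (D1 f) 0 = H2 f 0 (1, 0) (1, 0) := D1D1 hsm _ _
      rw [e, chart_H2 hUo hH.s3 u L h00, L10, eu]; exact hw)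
    (by
      have e : D2 (D1 f) 0 = H2 f 0 (0, 1) (1, 0) := D1D1 hsm _ _
      rw [e, chart_H2 hUo hH.s3 u L h00, L10, L01, eu]; exact hk w)
    (by
      have e : D2 (D2 f) 0 = H2 f 0 (0, 1) (0, 1) := D1D1 hsm _ _
      rw [e, chart_H2 hUo hH.s3 u L h00, L01, eu]; exact hk v)
    (by
      have e : D2 (D2 (D2 f)) 0 = H3 f 0 (0, 1) (0, 1) (0, 1) := D3 hsm _ _ _
      rw [e, chart_H3 hUo hH.s3 u L h00, L01, eu]; exact h3)
  -- the linear map of the target
  set Λ : V3 →L[ℝ] ℝ × ℝ × ℝ := (innerSL ℝ w).prod ((innerSL ℝ v).prod (innerSL ℝ u)) with hΛ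
  have hΛv : ∀ g, Λ g = (inner ℝ w g, inner ℝ v g, inner ℝ u g) := fun g => by simp [hΛ]
  have hfront : ∀ y : ℝ × ℝ, u + L y ≠ 0 → front f y = Λ (gradient H (u + L y)) := by
    intro y hy
    have d1 : fderiv ℝ f y (1, 0) = fderiv ℝ H (u + L y) w := by
      rw [hf, chart_D1 hUo hH.s3 u L hy, L10]
    have d2 : fderiv ℝ f y (0, 1) = fderiv ℝ H (u + L y) v := by
      rw [hf, chart_D1 hUo hH.s3 u L hy, L01]
    have hg : ∀ z, inner ℝ z (gradient H (u + L y)) = fderiv ℝ H (u + L y) z := by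
      intro z
      rw [real_inner_comm]
      exact InnerProductSpace.toDual_symm_apply
    have he := hH.euler1 hy
    rw [map_add, hLv, map_add, map_smul, map_smul, ← hLv] at he
    unfold front
    rw [d1, d2, hΛv, hg, hg, hg]
    refine Prod.ext rfl (Prod.ext rfl ?_)
    show H (u + L y) - y.1 * fderiv ℝ H (u + L y) w - y.2 * fderiv ℝ H (u + L y) v =
      fderiv ℝ H (u + L y) u
    rw [← he]
    simp only [smul_eq_mul]
    ring
  have hf0 : front f 0 = Λ (hedgehog H u) := by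
    rw [hfront 0 h00, eu, grad_eq hH hu]
  have hΛinj : Function.Injective Λ := by
    rw [injective_iff_map_eq_zero]
    intro g hg
    rw [hΛv] at hg
    have g1 : inner ℝ w g = 0 := congrArg Prod.fst hg
    have g2 : inner ℝ v g = 0 := congrArg (fun p => p.2.1) hg
    have g3 : inner ℝ u g = 0 := congrArg (fun p => p.2.2) hg
    -- `w, v, u` span
    have hli : LinearIndependent ℝ ![w, v, u] := by
      rw [Fintype.linearIndependent_iff]
      intro c hc i
      rw [Fin.sum_univ_three] at hc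
      simp only [Matrix.cons_val_zero, Matrix.cons_val_one, Matrix.cons_val] at hc
      have := indep (c 0) (c 1) (-(c 2)) (by
        rw [neg_smul]; exact eq_neg_of_add_eq_zero_left hc)
      fin_cases i
      · exact this.1
      · exact this.2.1
      · simpa using this.2.2
    have hsp := hli.span_eq_top_of_card_eq_finrank' (by simp)
    have hgm : g ∈ Submodule.span ℝ (Set.range ![w, v, u]) := by rw [hsp]; trivial
    have hle : Submodule.span ℝ (Set.range ![w, v, u]) ≤ (ℝ ∙ g)ᗮ := by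
      rw [Submodule.span_le]
      rintro _ ⟨i, rfl⟩
      rw [SetLike.mem_coe, Submodule.mem_orthogonal_singleton_iff_inner_left]
      fin_cases i
      · exact g1
      · exact g2
      · exact g3
    have := hle hgm
    rw [Submodule.mem_orthogonal_singleton_iff_inner_left] at this
    exact inner_self_eq_zero.1 this
  have hΛbij : Function.Bijective Λ := by
    refine ⟨hΛinj, ?_⟩
    have hfr : Module.finrank ℝ V3 = Module.finrank ℝ (ℝ × ℝ × ℝ) := by simp
    exact (LinearMap.injective_iff_surjective_of_finrank_eq_finrank (f := (Λ : V3 →ₗ[ℝ] _)) hfr).1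
      hΛinj
  have hAφ : Sm (fun p => u + L (φ p)) 0 := by
    have h := Sm.comp (g := fun z : ℝ × ℝ => u + L z) (f := φ) (a := 0)
      ((Sm.const u _).add (sm_linear L _)) c1
    exact h
  have hA0 : u + L (φ 0) = u := by rw [c2, map_zero, add_zero]
  have hA00 : u + L (φ 0) ≠ 0 := by rw [hA0]; exact hu0
  have hne0 : ∀ᶠ p in 𝓝 (0 : ℝ × ℝ), u + L (φ p) ≠ 0 := hAφ.continuousAt.eventually_ne hA00
  have hnsm : Sm (fun p => ‖u + L (φ p)‖) 0 := sm_norm hAφ hA00
  have hφsm : Sm (fun p => ‖u + L (φ p)‖⁻¹ • (u + L (φ p))) 0 := sm_inv_smul hAφ hA00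
  refine ⟨fun p => ‖u + L (φ p)‖⁻¹ • (u + L (φ p)), fun g => ψ (Λ g), hφsm, ?_, ?_, ?_, ?_, ?_, ?_⟩
  · show ‖u + L (φ 0)‖⁻¹ • (u + L (φ 0)) = u
    rw [hA0, hu]; simp
  · filter_upwards [hne0] with p hp
    exact norm_smul_inv_norm (𝕜 := ℝ) hp
  · rw [injective_iff_map_eq_zero]
    intro ξ hξ
    -- differentiate `y = ‖y‖ • φ`
    have e1 : HasFDerivAt (fun p => u + L (φ p)) (L.comp (fderiv ℝ φ 0)) 0 :=
      (L.hasFDerivAt.comp (0 : ℝ × ℝ) c1.differentiableAt.hasFDerivAt).const_add u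
    have e2 := hnsm.differentiableAt.hasFDerivAt
    have e3 := hφsm.differentiableAt.hasFDerivAt
    have e4 := e2.smul e3
    have hev : (fun p => u + L (φ p)) =ᶠ[𝓝 0]
        fun p => ‖u + L (φ p)‖ • (‖u + L (φ p)‖⁻¹ • (u + L (φ p))) := by
      filter_upwards [hne0] with p hp
      rw [smul_smul, mul_inv_cancel₀ (norm_ne_zero_iff.2 hp), one_smul]
    have e5 := e1.unique (e4.congr_of_eventuallyEq hev)
    have e6 := congrArg (fun l : ℝ × ℝ →L[ℝ] V3 => l ξ) e5
    simp only [ContinuousLinearMap.comp_apply, ContinuousLinearMap.add_apply,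
      ContinuousLinearMap.smul_apply, ContinuousLinearMap.smulRight_apply, hξ, smul_zero,
      zero_add] at e6
    rw [hA0, hu, inv_one, one_smul, hLv] at e6
    obtain ⟨a1, a2, -⟩ := indep _ _ _ e6
    have : fderiv ℝ φ 0 ξ = 0 := Prod.ext a1 a2
    exact (injective_iff_map_eq_zero _).1 c3.1 ξ this
  · rw [hf0] at c4
    exact Sm.comp (g := ψ) (f := fun g => Λ g) c4 (sm_linear Λ _)
  · rw [hf0] at c4 c5
    have : fderiv ℝ (fun g => ψ (Λ g)) (hedgehog H u) =
        (fderiv ℝ ψ (Λ (hedgehog H u))).comp Λ :=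
      (c4.differentiableAt.hasFDerivAt.comp _ Λ.hasFDerivAt).fderiv
    rw [this]
    exact c5.comp hΛbij
  · filter_upwards [hne0, c6] with p hp hp'
    show ψ (Λ (hedgehog H (‖u + L (φ p)‖⁻¹ • (u + L (φ p))))) = _
    rw [grad_eq' hH hp, ← hfront _ hp, hp']

end

end Pool.Agent.H81.HD.T.CUSP
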