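import Pool.Agent.H81.HD.Stm

/-!
# Hedgehogs, stub FACE: one face of the cube is enough
-/

open Set Filter Topology
open scoped ContDiff

namespace Pool.Agent.H81.HD.T.FACE

open Pool.Agent.H30.Hedge (H2 H3 V3 Homog Fold)
open Pool.Agent.H81.HD

noncomputable section

/-- the linear part of the chart -/
def L : ℝ × ℝ →L[ℝ] V3 :=
  LinearMap.toContinuousLinearMap
    { toFun := fun y => !₂[y.1, y.2, 0]
      map_add' := fun y z => by
        ext i
        fin_cases i <;> simp
      map_smul' := fun c y => by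
        ext i
        fin_cases i <;> simp }

/-- the constant part of the chart -/
def a0 : V3 := !₂[0, 0, 1]

lemma pt_eq (y : ℝ × ℝ) : pt y = a0 + L y := by
  ext i
  fin_cases i <;> simp [pt, a0, L]

/-- the cyclic permutation -/
def C : V3 →L[ℝ] V3 :=
  LinearMap.toContinuousLinearMap
    { toFun := cyc
      map_add' := fun y z => by
        ext i
        fin_cases i <;> simp [cyc]
      map_smul' := fun c y => by
        ext i
        fin_cases i <;> simp [cyc] }

lemma C_apply (x : V3) : C x = cyc x := rfl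

lemma cyc3 (x : V3) : cyc (cyc (cyc x)) = x := by
  ext i
  fin_cases i <;> simp [cyc]

lemma C_inj : Function.Injective C := fun x y h => by
  have := congrArg (fun z => cyc (cyc z)) h
  simpa [C_apply, cyc3] using this

lemma C_surj (w : V3) : ∃ z, C z = w := ⟨cyc (cyc w), cyc3 w⟩

lemma pt_ne (y : ℝ × ℝ) : pt y ≠ 0 := fun h => by
  have := congrArg (fun z : V3 => z 2) h
  simp [pt] at this

lemma cyc_ne {x : V3} (hx : x ≠ 0) : cyc x ≠ 0 := fun h => hx (by
  have h1 : C x = C 0 := by rw [C_apply, h, map_zero]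
  exact C_inj h1)

lemma fold_cyc {H : V3 → ℝ} (hH : Homog H) (hc : ∀ x, H (cyc x) = H x) {x : V3} (hx : x ≠ 0)
    (h : Fold H (cyc x)) : Fold H x := by
  have hmem : (0 : V3) + C x ∈ ({0}ᶜ : Set V3) := by
    rw [zero_add]
    exact cyc_ne hx
  have he : (fun z => H (0 + C z)) = H := funext fun z => by rw [zero_add]; exact hc z
  have e2 : ∀ v w, H2 H x v w = H2 H (cyc x) (C v) (C w) := by
    intro v w
    have := Pool.Agent.H30.Hedge.chart_H2 isOpen_compl_singleton hH.s3 (0 : V3) C hmem v w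
    rwa [he, zero_add] at this
  have e3 : ∀ u v w, H3 H x u v w = H3 H (cyc x) (C u) (C v) (C w) := by
    intro u v w
    have := Pool.Agent.H30.Hedge.chart_H3 isOpen_compl_singleton hH.s3 (0 : V3) C hmem u v w
    rwa [he, zero_add] at this
  intro v hv hk
  obtain ⟨h1, w, h2⟩ := h (C v) (fun c hc => hv c (C_inj (by rw [map_smul]; exact hc)))
    (fun w => by
      obtain ⟨z, rfl⟩ := C_surj w
      rw [← e2]
      exact hk z)
  obtain ⟨z, rfl⟩ := C_surj w
  exact ⟨by rw [e3]; exact h1, z, by rw [e2]; exact h2⟩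

theorem main : S_FACE := by
  intro H hH hc hK
  have h1 : ∀ y ∈ KK, Fold H (pt y) := by
    intro y hy
    have hp : (fun z => H (pt z)) = fun z => H (a0 + L z) := funext fun z => by rw [pt_eq]
    rw [pt_eq]
    refine Fold.of_chart hH a0 L (by rw [← pt_eq]; exact pt_ne y) (fun v => ?_) ?_
    · refine ⟨v 2, (v 0 - v 2 * y.1, v 1 - v 2 * y.2), ?_⟩
      ext i
      fin_cases i <;> simp [a0, L]
    · have := hK y hy
      rwa [hp] at this
  have h2 : ∀ x : V3, x 2 ≠ 0 → |x 0| ≤ |x 2| → |x 1| ≤ |x 2| → Fold H x := by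
    intro x h0 hx hy
    have hm : ∀ a : ℝ, |a| ≤ |x 2| → a / x 2 ∈ Icc (-1 : ℝ) 1 := by
      intro a ha
      have hb : |a / x 2| ≤ 1 := by
        rw [abs_div]
        exact div_le_one_of_le₀ ha (abs_nonneg _)
      exact ⟨(abs_le.mp hb).1, (abs_le.mp hb).2⟩
    have h3 := (h1 (x 0 / x 2, x 1 / x 2) ⟨hm _ hx, hm _ hy⟩).smul hH (pt_ne _) h0
    have h4 : x 2 • pt (x 0 / x 2, x 1 / x 2) = x := by
      ext i
      fin_cases i
      · simp [pt]
        field_simp
      · simp [pt]
        field_simp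
      · simp [pt]
    rwa [h4] at h3
  intro x hx
  have hcx := cyc_ne hx
  have hne : ∀ i, (∀ j, |x j| ≤ |x i|) → x i ≠ 0 := by
    intro i hi h0
    refine hx ?_
    ext j
    have := hi j
    rw [h0, abs_zero] at this
    simpa using abs_nonpos_iff.mp this
  obtain ⟨i, hi⟩ := Finite.exists_max fun i => |x i|
  have hni := hne i hi
  fin_cases i
  · refine fold_cyc hH hc hx (h2 _ ?_ ?_ ?_)
    · simpa [cyc] using hni
    · simpa [cyc] using hi 1
    · simpa [cyc] using hi 2
  · refine fold_cyc hH hc hx (fold_cyc hH hc hcx (h2 _ ?_ ?_ ?_))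
    · simpa [cyc] using hni
    · simpa [cyc] using hi 2
    · simpa [cyc] using hi 0
  · exact h2 x hni (hi 0) (hi 1)

end

end Pool.Agent.H81.HD.T.FACE
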