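import Pool.Agent.H81.HD.Stm

/-!
# Hedgehogs, stub HOM: the perturbed function is homogeneous
-/

open Set Filter Topology
open scoped ContDiff

namespace Pool.Agent.H81.HD.T.HOM

open Pool.Agent.H30.Hedge (H2 H3 V3 Homog Fold)
open Pool.Agent.H81.HD

theorem main : S_HOM := by
  intro H F G hH hF hF1 hF2 hG hG1
  refine ⟨?_, fun t ht x => ?_⟩
  · refine hH.smooth.add (ContDiffOn.mul ?_ (hG.comp_contDiffOn hF))
    intro x hx
    exact (contDiffAt_norm ℝ hx).contDiffWithinAt
  · rw [hH.hom t ht, norm_smul, Real.norm_eq_abs]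
    rcases lt_or_gt_of_ne ht with h | h
    · have h1 : F (t • x) = -F x := by
        have := hF1 (-t) (neg_pos.mpr h) x
        rw [neg_smul, hF2] at this
        rw [← this, neg_neg]
      rw [h1, hG1, abs_of_neg h]
      ring
    · rw [hF1 t h x, abs_of_pos h]
      ring

end Pool.Agent.H81.HD.T.HOM
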