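import Mathlib
import Pool.Agent.H30.Hedge.Cusp
import Pool.Agent.H81.HD.Stm

/-!
# The final assembly from the certificate
-/

open Set Filter Topology
open scoped ContDiff

namespace Pool.Agent.H81.HD.T.MAIN

open Pool.Agent.H30.Hedge (H2 H3 V3 Homog Fold hedgehog SingularAt SmoothOnSphere smoothOnSphere)
open Pool.Agent.H81.HC (Sm D1 D2)
open Pool.Agent.H81.HB (gg Data S_GEO S_MORSE)

noncomputable section

lemma norm_pt (y : ℝ × ℝ) : ‖pt y‖ = √(rho y) := by
  rw [EuclideanSpace.norm_eq, Fin.sum_univ_three]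
  congr 1
  simp [pt, rho]
  ring

lemma rho_pos (y : ℝ × ℝ) : 0 < rho y := by
  unfold rho
  positivity

lemma norm_cyc (x : V3) : ‖cyc x‖ = ‖x‖ := by
  rw [EuclideanSpace.norm_eq, EuclideanSpace.norm_eq, Fin.sum_univ_three, Fin.sum_univ_three]
  congr 1
  simp [cyc]
  ring

theorem main : S_POLY → S_MORSE → S_GEO → S_HOM → S_FACE → S_CUSP → S_MAIN := by
  intro hPOLY hMORSE hGEO hHOM hFACE hCUSP P3 Q3 m N c0 hP hQ hN hc0 tP tQ cP cQ hcert
  set H : V3 → ℝ := fun x => (‖x‖ ^ (2 * m))⁻¹ * P3 x with hH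
  set F : V3 → ℝ := fun x => (‖x‖ ^ N)⁻¹ * Q3 x with hF
  have hn : ContDiffOn ℝ ∞ (fun x : V3 => ‖x‖) {0}ᶜ := contDiffOn_id.norm ℝ (fun x hx => hx)
  have sH : ContDiffOn ℝ ∞ H {0}ᶜ :=
    ((hn.pow _).inv (fun x hx => pow_ne_zero _ (norm_ne_zero_iff.2 hx))).mul hP.contDiffOn
  have sF : ContDiffOn ℝ ∞ F {0}ᶜ :=
    ((hn.pow _).inv (fun x hx => pow_ne_zero _ (norm_ne_zero_iff.2 hx))).mul hQ.contDiffOn
  have homH : Homog H := by
    refine ⟨sH, fun t ht x => ?_⟩
    simp only [hH]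
    rw [tP, norm_smul, Real.norm_eq_abs, mul_pow, pow_mul |t|, sq_abs, ← pow_mul, mul_inv,
      pow_succ t (2 * m)]
    have : t ^ (2 * m) ≠ 0 := pow_ne_zero _ ht
    field_simp
  have posF : ∀ t : ℝ, 0 < t → ∀ x, F (t • x) = F x := by
    intro t ht x
    simp only [hF]
    rw [tQ, norm_smul, Real.norm_eq_abs, abs_of_pos ht, mul_pow, mul_inv]
    have : t ^ N ≠ 0 := pow_ne_zero _ ht.ne'
    field_simp
  have oddF : ∀ x, F (-x) = -F x := by
    intro x
    simp only [hF]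
    have : Q3 (-x) = -Q3 x := by
      have := tQ (-1) x
      rw [neg_one_smul, hN.neg_one_pow] at this
      linarith
    rw [this, norm_neg]
    ring
  have hfP : (fun y => H (pt y)) = fun y => P3 (pt y) / rho y ^ m := by
    funext y
    simp only [hH]
    rw [norm_pt, pow_mul, Real.sq_sqrt (rho_pos y).le, div_eq_inv_mul]
  have hfQ : (fun y => F (pt y)) = fun y => Q3 (pt y) / √(rho y) ^ N := by
    funext y
    simp only [hF]
    rw [norm_pt, div_eq_inv_mul]
  have hpt : ContDiff ℝ ∞ pt := by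
    rw [contDiff_euclidean]
    intro i
    fin_cases i
    · exact contDiff_fst
    · exact contDiff_snd
    · exact contDiff_const
  obtain ⟨hD, hneg, hmorse⟩ := hPOLY (fun y => P3 (pt y)) (fun y => Q3 (pt y)) m N c0
    (hP.comp hpt) (hQ.comp hpt) hc0 hcert
  have hfin := hMORSE univ KK (fun y => Q3 (pt y) / √(rho y) ^ N) c0 isOpen_univ hD.hK hD.hKU
    hD.hF hmorse
  obtain ⟨G, sG, oG, zG, hG⟩ := hGEO univ KK (fun y => P3 (pt y) / rho y ^ m)
    (fun y => Q3 (pt y) / √(rho y) ^ N) (fun y => √(rho y)) c0 hD hneg hfin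
  have hhom := hHOM H F G homH sF posF oddF sG oG
  have hch : (fun z => H (pt z) + ‖pt z‖ * G (F (pt z))) =
      gg (fun y => P3 (pt y) / rho y ^ m) (fun y => Q3 (pt y) / √(rho y) ^ N)
        (fun y => √(rho y)) G := by
    funext y
    have e1 : H (pt y) = P3 (pt y) / rho y ^ m := congrFun hfP y
    have e2 : F (pt y) = Q3 (pt y) / √(rho y) ^ N := congrFun hfQ y
    rw [e1, e2, norm_pt]
    rfl
  have hfold := hFACE (fun x => H x + ‖x‖ * G (F x)) hhom (fun x => by
      simp only [hH, hF]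
      rw [norm_cyc, cP, cQ]) (by
      intro y hy k hk hker
      simp only [hch] at hker ⊢
      exact hG y hy k hk hker)
  refine ⟨fun x => H x + ‖x‖ * G (F x), smoothOnSphere hhom, ?_, hCUSP _ hhom hfold⟩
  intro u
  have := hhom.hom (-1) (by norm_num) u
  rw [neg_one_smul] at this
  refine this.trans ?_
  ring

end

end Pool.Agent.H81.HD.T.MAIN
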