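import Mathlib
import Pool.Agent.H81.HD.Stm
import Pool.Agent.H81.HC.Basic

/-!
# Stub HD-POLY: from the polynomial inequalities to the hypotheses of the ring insertion
-/

open Set Filter Topology
open scoped ContDiff

namespace Pool.Agent.H81.HD.T.POLY

open Pool.Agent.H30.Hedge (H2 H3 V3 H2_eq H2_symm H2_add_left H2_add_right H2_smul_left H2_smul_right
  line_hasDeriv)
open Pool.Agent.H81.HC (Sm D1 D2 fderiv_eq_D)
open Pool.Agent.H81.HB (Data)
open Pool.Agent.H81.HD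

noncomputable section

lemma rho_pos (y : ℝ × ℝ) : 0 < rho y := by unfold rho; positivity

lemma rho_smooth : ContDiff ℝ ∞ rho := by unfold rho; fun_prop

lemma sq_pos (y : ℝ × ℝ) : 0 < √(rho y) := Real.sqrt_pos.2 (rho_pos y)

lemma sq_sq (y : ℝ × ℝ) : √(rho y) ^ 2 = rho y := Real.sq_sqrt (rho_pos y).le

lemma sqrt_smooth : ContDiff ℝ ∞ (fun y => √(rho y)) :=
  rho_smooth.sqrt fun y => (rho_pos y).ne'

/-- `Q / ρ ^ (N / 2)` -/
def W (Q : ℝ × ℝ → ℝ) (N : ℕ) (y : ℝ × ℝ) : ℝ := Q y / √(rho y) ^ N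

lemma W_smooth {Q : ℝ × ℝ → ℝ} (hQ : ContDiff ℝ ∞ Q) (N : ℕ) :
    ContDiff ℝ ∞ (W Q N) := by
  unfold W
  exact hQ.div (sqrt_smooth.pow N) fun y => pow_ne_zero _ (sq_pos y).ne'

lemma smooth3' {f : ℝ × ℝ → ℝ} (hf : ContDiff ℝ ∞ f) : ContDiff ℝ 3 f := by
  exact_mod_cast contDiff_infty.1 hf 3

lemma W_diff {Q : ℝ × ℝ → ℝ} {y : ℝ × ℝ} (hQ : DifferentiableAt ℝ Q y) (N : ℕ) :
    DifferentiableAt ℝ (W Q N) y := by
  have h2 : DifferentiableAt ℝ (fun y => √(rho y) ^ N) y :=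
    (sqrt_smooth.pow N).differentiable (by simp) y
  have h3 : (fun y => √(rho y) ^ N) y ≠ 0 := pow_ne_zero _ (sq_pos y).ne'
  have h4 : DifferentiableAt ℝ (fun y => Q y * (√(rho y) ^ N)⁻¹) y := hQ.mul (h2.inv h3)
  have h5 : W Q N = fun y => Q y * (√(rho y) ^ N)⁻¹ := funext fun y => div_eq_mul_inv _ _
  rw [h5]
  exact h4

lemma rho_line (y v : ℝ × ℝ) :
    HasDerivAt (fun s : ℝ => rho (y + s • v)) (2 * (y.1 * v.1 + y.2 * v.2)) 0 := by
  unfold rho
  have h1 : HasDerivAt (fun s : ℝ => (y + s • v).1) v.1 0 := by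
    simpa using ((hasDerivAt_id (0 : ℝ)).mul_const v.1).const_add y.1
  have h2 : HasDerivAt (fun s : ℝ => (y + s • v).2) v.2 0 := by
    simpa using ((hasDerivAt_id (0 : ℝ)).mul_const v.2).const_add y.2
  have h3 := ((h1.pow 2).const_add 1).add (h2.pow 2)
  refine h3.congr_deriv ?_
  simp
  ring

lemma fderiv_W {Q : ℝ × ℝ → ℝ} {y : ℝ × ℝ} (hQ : DifferentiableAt ℝ Q y) (N : ℕ) (v : ℝ × ℝ) :
    fderiv ℝ (W Q N) y v =
      (rho y * fderiv ℝ Q y v - N * (y.1 * v.1 + y.2 * v.2) * Q y) / √(rho y) ^ (N + 2) := by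
  have h1 := line_hasDeriv (k := v) (W_diff hQ N)
  have hs : HasDerivAt (fun s : ℝ => √(rho (y + s • v)))
      ((y.1 * v.1 + y.2 * v.2) / √(rho y)) 0 := by
    have := (rho_line y v).sqrt (by simpa using (rho_pos y).ne')
    refine this.congr_deriv ?_
    have := (sq_pos y).ne'
    simp
    field_simp
  have hq := line_hasDeriv (k := v) hQ
  have e0 : y + (0 : ℝ) • v = y := by simp
  have h2 := hq.div (hs.pow N) (by
    simp only [Pi.pow_apply]
    rw [e0]; exact pow_ne_zero _ (sq_pos y).ne')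
  have h3 := h1.unique h2
  rw [h3]
  simp only [Pi.pow_apply]
  rw [e0]
  have hp := sq_pos y
  have hsq := sq_sq y
  set s := √(rho y) with hsdef
  rw [← hsq]
  rcases N with _ | N
  · simp
    field_simp
  · push_cast
    field_simp
    ring

lemma H2_W {Q : ℝ × ℝ → ℝ} (hQ : ContDiff ℝ ∞ Q) (N : ℕ) (y v w : ℝ × ℝ) :
    H2 (W Q N) y v w =
      (rho y ^ 2 * H2 Q y v w -
        N * rho y * ((y.1 * v.1 + y.2 * v.2) * fderiv ℝ Q y w +
          (y.1 * w.1 + y.2 * w.2) * fderiv ℝ Q y v) +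
        (N * (N + 2) * (y.1 * v.1 + y.2 * v.2) * (y.1 * w.1 + y.2 * w.2) -
          N * rho y * (v.1 * w.1 + v.2 * w.2)) * Q y) / √(rho y) ^ (N + 4) := by
  have hW : ContDiff ℝ ∞ (W Q N) := W_smooth hQ N
  have hdW : DifferentiableAt ℝ (fderiv ℝ (W Q N)) y :=
    (hW.fderiv_right (m := ∞) (by simp)).differentiable (by simp) y
  have hdQ : DifferentiableAt ℝ (fderiv ℝ Q) y :=
    (hQ.fderiv_right (m := ∞) (by simp)).differentiable (by simp) y
  have hQd : ∀ z, DifferentiableAt ℝ Q z := fun z => hQ.differentiable (by simp) z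
  rw [H2_eq hdW]
  have e1 : (fun z => fderiv ℝ (W Q N) z w) =
      W (fun z => rho z * fderiv ℝ Q z w - N * (z.1 * w.1 + z.2 * w.2) * Q z) (N + 2) := by
    funext z
    rw [fderiv_W (hQd z)]
    rfl
  rw [e1]
  have hQw : DifferentiableAt ℝ (fun z => fderiv ℝ Q z w) y :=
    hdQ.clm_apply (differentiableAt_const w)
  have hrho : DifferentiableAt ℝ rho y := rho_smooth.differentiable (by simp) y
  have hlin : DifferentiableAt ℝ (fun z : ℝ × ℝ => (N : ℝ) * (z.1 * w.1 + z.2 * w.2)) y := by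
    fun_prop
  have hG : DifferentiableAt ℝ
      (fun z => rho z * fderiv ℝ Q z w - N * (z.1 * w.1 + z.2 * w.2) * Q z) y :=
    (hrho.mul hQw).sub (hlin.mul (hQd y))
  rw [fderiv_W hG]
  have e2 : fderiv ℝ (fun z => rho z * fderiv ℝ Q z w - N * (z.1 * w.1 + z.2 * w.2) * Q z) y v =
      2 * (y.1 * v.1 + y.2 * v.2) * fderiv ℝ Q y w + rho y * H2 Q y v w -
        (N * (v.1 * w.1 + v.2 * w.2) * Q y + N * (y.1 * w.1 + y.2 * w.2) * fderiv ℝ Q y v) := by
    have h1 := line_hasDeriv (k := v) hG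
    have hq := line_hasDeriv (k := v) (hQd y)
    have hqw := line_hasDeriv (k := v) hQw
    rw [← H2_eq hdQ] at hqw
    have hl : HasDerivAt (fun s : ℝ => (N : ℝ) * ((y + s • v).1 * w.1 + (y + s • v).2 * w.2))
        (N * (v.1 * w.1 + v.2 * w.2)) 0 := by
      have h1 : HasDerivAt (fun s : ℝ => (y + s • v).1) v.1 0 := by
        simpa using ((hasDerivAt_id (0 : ℝ)).mul_const v.1).const_add y.1
      have h2 : HasDerivAt (fun s : ℝ => (y + s • v).2) v.2 0 := by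
        simpa using ((hasDerivAt_id (0 : ℝ)).mul_const v.2).const_add y.2
      exact ((h1.mul_const w.1).add (h2.mul_const w.2)).const_mul (N : ℝ)
    have h2 := ((rho_line y v).mul hqw).sub (hl.mul hq)
    have h3 := h1.unique h2
    rw [h3]
    simp
  rw [e2]
  have hp := sq_pos y
  have hsq := sq_sq y
  set s := √(rho y) with hsdef
  rw [← hsq]
  push_cast
  field_simp
  ring

section forms

variable {Q : ℝ × ℝ → ℝ}

lemma D_D (hQ : ContDiff ℝ ∞ Q) (y : ℝ × ℝ) :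
    D1 (D1 Q) y = H2 Q y (1, 0) (1, 0) ∧ D2 (D1 Q) y = H2 Q y (0, 1) (1, 0) ∧
      D2 (D2 Q) y = H2 Q y (0, 1) (0, 1) := by
  have hdQ : DifferentiableAt ℝ (fderiv ℝ Q) y :=
    (hQ.fderiv_right (m := ∞) (by simp)).differentiable (by simp) y
  refine ⟨?_, ?_, ?_⟩
  · rw [H2_eq hdQ]; rfl
  · rw [H2_eq hdQ]; rfl
  · rw [H2_eq hdQ]; rfl

lemma H2_expand (hQ : ContDiff ℝ ∞ Q) (y v w : ℝ × ℝ) :
    H2 Q y v w = D1 (D1 Q) y * (v.1 * w.1) + D2 (D1 Q) y * (v.1 * w.2 + v.2 * w.1) +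
      D2 (D2 Q) y * (v.2 * w.2) := by
  obtain ⟨h1, h2, h3⟩ := D_D hQ y
  rw [h1, h2, h3]
  have hs : H2 Q y (1, 0) (0, 1) = H2 Q y (0, 1) (1, 0) :=
    H2_symm isOpen_univ (smooth3' hQ).contDiffOn (mem_univ y) _ _
  have hv : v = v.1 • ((1, 0) : ℝ × ℝ) + v.2 • ((0, 1) : ℝ × ℝ) := by ext <;> simp
  have hw : w = w.1 • ((1, 0) : ℝ × ℝ) + w.2 • ((0, 1) : ℝ × ℝ) := by ext <;> simp
  conv_lhs => rw [hv, hw]
  simp only [H2_add_left, H2_add_right, H2_smul_left, H2_smul_right]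
  rw [hs]
  ring

lemma dW (hQ : ContDiff ℝ ∞ Q) (N : ℕ) (y v : ℝ × ℝ) :
    fderiv ℝ (W Q N) y v = (g1 Q N y * v.1 + g2 Q N y * v.2) / √(rho y) ^ (N + 2) := by
  rw [fderiv_W (hQ.differentiable (by simp) y), fderiv_eq_D]
  unfold g1 g2
  ring

lemma ddW (hQ : ContDiff ℝ ∞ Q) (N : ℕ) (y v w : ℝ × ℝ) :
    H2 (W Q N) y v w =
      (q11 Q N y * (v.1 * w.1) + q12 Q N y * (v.1 * w.2 + v.2 * w.1) + q22 Q N y * (v.2 * w.2)) /
        √(rho y) ^ (N + 4) := by
  rw [H2_W hQ, H2_expand hQ, fderiv_eq_D Q y v, fderiv_eq_D Q y w]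
  unfold q11 q12 q22
  ring

end forms

lemma a_eq (P : ℝ × ℝ → ℝ) (m : ℕ) (y : ℝ × ℝ) :
    q11 P (2 * m) y = a11 P m y ∧ q12 P (2 * m) y = a12 P m y ∧ q22 P (2 * m) y = a22 P m y := by
  unfold q11 q12 q22 a11 a12 a22
  push_cast
  refine ⟨?_, ?_, ?_⟩ <;> ring

lemma W_even (P : ℝ × ℝ → ℝ) (m : ℕ) : (fun y => P y / rho y ^ m) = W P (2 * m) := by
  funext y
  unfold W
  rw [pow_mul, sq_sq]

/-! quadratic forms -/

lemma form_indef {a b c : ℝ} (h : a * c - b ^ 2 < 0) :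
    (∃ v : ℝ × ℝ, a * (v.1 * v.1) + b * (v.1 * v.2 + v.2 * v.1) + c * (v.2 * v.2) < 0) ∧
    ∃ v : ℝ × ℝ, 0 < a * (v.1 * v.1) + b * (v.1 * v.2 + v.2 * v.1) + c * (v.2 * v.2) := by
  rcases lt_trichotomy a 0 with ha | ha | ha
  · refine ⟨⟨(1, 0), by simpa using ha⟩, ⟨(-b, a), ?_⟩⟩
    have : a * (-b * -b) + b * (-b * a + a * -b) + c * (a * a) = a * (a * c - b ^ 2) := by ring
    show 0 < a * (-b * -b) + b * (-b * a + a * -b) + c * (a * a)
    rw [this]
    exact mul_pos_of_neg_of_neg ha h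
  · subst ha
    have hb : b ≠ 0 := by
      rintro rfl
      simp at h
    refine ⟨⟨((-1 - c) / (2 * b), 1), ?_⟩, ⟨((1 - c) / (2 * b), 1), ?_⟩⟩
    · show 0 * _ + b * ((-1 - c) / (2 * b) * 1 + 1 * ((-1 - c) / (2 * b))) + c * (1 * 1) < 0
      have : b * ((-1 - c) / (2 * b) * 1 + 1 * ((-1 - c) / (2 * b))) = -1 - c := by
        field_simp
        ring
      rw [this]
      linarith
    · show 0 < 0 * _ + b * ((1 - c) / (2 * b) * 1 + 1 * ((1 - c) / (2 * b))) + c * (1 * 1)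
      have : b * ((1 - c) / (2 * b) * 1 + 1 * ((1 - c) / (2 * b))) = 1 - c := by
        field_simp
        ring
      rw [this]
      linarith
  · refine ⟨⟨(-b, a), ?_⟩, ⟨(1, 0), by simpa using ha⟩⟩
    have : a * (-b * -b) + b * (-b * a + a * -b) + c * (a * a) = a * (a * c - b ^ 2) := by ring
    show a * (-b * -b) + b * (-b * a + a * -b) + c * (a * a) < 0
    rw [this]
    exact mul_neg_of_pos_of_neg ha h

lemma form_pos {a b c : ℝ} (h : 0 < a * c - b ^ 2) (ha : 0 < a) {v : ℝ × ℝ} (hv : v ≠ 0) :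
    0 < a * (v.1 * v.1) + b * (v.1 * v.2 + v.2 * v.1) + c * (v.2 * v.2) := by
  have h1 : a * (a * (v.1 * v.1) + b * (v.1 * v.2 + v.2 * v.1) + c * (v.2 * v.2)) =
      (a * v.1 + b * v.2) ^ 2 + (a * c - b ^ 2) * v.2 ^ 2 := by ring
  have h2 : 0 < (a * v.1 + b * v.2) ^ 2 + (a * c - b ^ 2) * v.2 ^ 2 := by
    by_cases h0 : v.2 = 0
    · have h3 : v.1 ≠ 0 := fun h3 => hv (Prod.ext h3 h0)
      rw [h0]
      have : 0 < (a * v.1) ^ 2 := by positivity
      simpa using this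
    · have : 0 < (a * c - b ^ 2) * v.2 ^ 2 := by positivity
      have := sq_nonneg (a * v.1 + b * v.2)
      linarith
  rw [← h1] at h2
  by_contra hX
  push Not at hX
  have := mul_nonpos_of_nonneg_of_nonpos ha.le hX
  linarith

lemma form_neg {a b c : ℝ} (h : 0 < a * c - b ^ 2) (ha : a < 0) {v : ℝ × ℝ} (hv : v ≠ 0) :
    a * (v.1 * v.1) + b * (v.1 * v.2 + v.2 * v.1) + c * (v.2 * v.2) < 0 := by
  have := form_pos (a := -a) (b := -b) (c := -c) (by nlinarith) (by linarith) hv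
  linarith

/-- on the kernel of `(g, g')` -/
lemma form_T {a b c g g' : ℝ} {t : ℝ × ℝ} (ht : g * t.1 + g' * t.2 = 0) :
    (g ^ 2 + g' ^ 2) * (a * (t.1 * t.1) + b * (t.1 * t.2 + t.2 * t.1) + c * (t.2 * t.2)) =
      (a * g' ^ 2 - 2 * b * g * g' + c * g ^ 2) * (t.1 ^ 2 + t.2 ^ 2) := by
  linear_combination (a * (g * t.1 - g' * t.2) - c * (g * t.1 - g' * t.2) +
    2 * b * (g * t.2 + g' * t.1)) * ht

lemma tpos {t : ℝ × ℝ} (ht : t ≠ 0) : 0 < t.1 ^ 2 + t.2 ^ 2 := by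
  by_cases h0 : t.2 = 0
  · have h3 : t.1 ≠ 0 := fun h3 => ht (Prod.ext h3 h0)
    positivity
  · positivity

lemma form_T_pos {a b c g g' : ℝ} {t : ℝ × ℝ} (h0 : t ≠ 0) (ht : g * t.1 + g' * t.2 = 0)
    (hT : 0 < a * g' ^ 2 - 2 * b * g * g' + c * g ^ 2) :
    0 < a * (t.1 * t.1) + b * (t.1 * t.2 + t.2 * t.1) + c * (t.2 * t.2) := by
  have h1 := form_T (a := a) (b := b) (c := c) ht
  have h2 : 0 < (a * g' ^ 2 - 2 * b * g * g' + c * g ^ 2) * (t.1 ^ 2 + t.2 ^ 2) :=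
    mul_pos hT (tpos h0)
  rw [← h1] at h2
  by_contra hX
  push Not at hX
  have := mul_nonpos_of_nonneg_of_nonpos (by positivity : 0 ≤ g ^ 2 + g' ^ 2) hX
  linarith

lemma form_T_neg {a b c g g' : ℝ} {t : ℝ × ℝ} (h0 : t ≠ 0) (ht : g * t.1 + g' * t.2 = 0)
    (hT : a * g' ^ 2 - 2 * b * g * g' + c * g ^ 2 < 0) :
    a * (t.1 * t.1) + b * (t.1 * t.2 + t.2 * t.1) + c * (t.2 * t.2) < 0 := by
  have := form_T_pos (a := -a) (b := -b) (c := -c) h0 ht (by linarith)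
  linarith

/-- the values of `Q / ρ ^ (N / 2)` -/
lemma W_sq (Q : ℝ × ℝ → ℝ) (N : ℕ) (y : ℝ × ℝ) : (W Q N y) ^ 2 * rho y ^ N = Q y ^ 2 := by
  unfold W
  have h := (pow_pos (rho_pos y) N).ne'
  rw [div_pow, show (√(rho y) ^ N) ^ 2 = (√(rho y) ^ 2) ^ N by ring, sq_sq,
    div_mul_cancel₀ _ h]

theorem main : S_POLY := by
  intro P Q m N c0 hP hQ hc0 cert
  have hW : ∀ y, Q y / √(rho y) ^ N = W Q N y := fun y => rfl
  have e1 : (fun y => P y / rho y ^ m) = W P (2 * m) := W_even P m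
  have e2 : (fun y => Q y / √(rho y) ^ N) = W Q N := rfl
  rw [e1, e2]
  simp only [hW]
  have hkey : ∀ y, c0 ≤ |W Q N y| → c0 ^ 2 * rho y ^ N ≤ Q y ^ 2 := by
    intro y hy
    rw [← W_sq Q N y]
    refine mul_le_mul_of_nonneg_right ?_ (pow_nonneg (rho_pos y).le _)
    rw [← sq_abs (W Q N y)]
    exact pow_le_pow_left₀ hc0.le hy 2
  have hQpos : ∀ y, c0 ≤ W Q N y → 0 < Q y := by
    intro y hy
    have h1 : 0 < W Q N y := lt_of_lt_of_le hc0 hy
    unfold W at h1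
    by_contra h
    push Not at h
    exact absurd (div_nonpos_of_nonpos_of_nonneg h (pow_nonneg (sq_pos y).le N)) (not_le.2 h1)
  have hQneg : ∀ y, W Q N y ≤ -c0 → Q y < 0 := by
    intro y hy
    have h1 : W Q N y < 0 := by linarith
    unfold W at h1
    by_contra h
    push Not at h
    exact absurd (div_nonneg h (pow_nonneg (sq_pos y).le N)) (not_le.2 h1)
  have hzero : ∀ y t, fderiv ℝ (W Q N) y t = 0 → g1 Q N y * t.1 + g2 Q N y * t.2 = 0 := by
    intro y t h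
    rw [dW hQ] at h
    rcases div_eq_zero_iff.1 h with h | h
    · exact h
    · exact absurd h (pow_ne_zero _ (sq_pos y).ne')
  have hH : ∀ y v w, H2 (W P (2 * m)) y v w =
      (a11 P m y * (v.1 * w.1) + a12 P m y * (v.1 * w.2 + v.2 * w.1) +
        a22 P m y * (v.2 * w.2)) / √(rho y) ^ (2 * m + 4) := by
    intro y v w
    rw [ddW hP]
    obtain ⟨h1, h2, h3⟩ := a_eq P m y
    rw [h1, h2, h3]
  have hs : ∀ (y : ℝ × ℝ) (n : ℕ), 0 < √(rho y) ^ n := fun y n => pow_pos (sq_pos y) n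
  refine ⟨⟨isOpen_univ, isCompact_Icc.prod isCompact_Icc, subset_univ _,
    (smooth3' (W_smooth hP _)).contDiffOn, (smooth3' (W_smooth hQ _)).contDiffOn,
    (smooth3' sqrt_smooth).contDiffOn, fun x _ => sq_pos x, hc0, ?_, ?_⟩, ?_, ?_⟩
  · -- A1
    intro x hx hF
    have hdet : detA P m x < 0 := by
      apply cert.core x hx
      rw [← W_sq Q N x]
      refine mul_le_mul_of_nonneg_right ?_ (pow_nonneg (rho_pos x).le _)
      rw [← sq_abs (W Q N x)]
      exact pow_le_pow_left₀ (abs_nonneg _) hF 2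
    obtain ⟨⟨v, hv⟩, ⟨w, hw⟩⟩ := form_indef hdet
    refine ⟨⟨v, ?_⟩, ⟨w, ?_⟩⟩
    · rw [hH]
      exact div_neg_of_neg_of_pos hv (hs _ _)
    · rw [hH]
      exact div_pos hw (hs _ _)
  · -- A2
    intro x hx hF t ht h0
    rw [hH]
    refine div_pos ?_ (hs _ _)
    have hF' : c0 ≤ |W Q N x| := hF.trans (le_abs_self _)
    rcases cert.pos x hx (hQpos x hF) (hkey x hF') with h | ⟨h, h', -⟩
    · exact form_T_pos ht (hzero x t h0) h
    · exact form_pos h h' ht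
  · intro x hx hF t ht h0
    rw [hH]
    refine div_neg_of_neg_of_pos ?_ (hs _ _)
    have hF' : c0 ≤ |W Q N x| := by
      rw [abs_of_neg (by linarith)]
      linarith
    rcases cert.neg x hx (hQneg x hF) (hkey x hF') with h | ⟨h, h', -⟩
    · exact form_T_neg ht (hzero x t h0) h
    · exact form_neg h h' ht
  · intro x hx hF h0 k hk
    have hg1 : g1 Q N x = 0 := by
      have := hzero x (1, 0) (by rw [h0]; rfl)
      simpa using this
    have hg2 : g2 Q N x = 0 := by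
      have := hzero x (0, 1) (by rw [h0]; rfl)
      simpa using this
    have hT : TTT P Q m N x = 0 := by
      unfold TTT
      rw [hg1, hg2]
      ring
    have hdet : detQ Q N x ≠ 0 := by
      rcases le_abs.1 hF with h | h
      · rcases cert.pos x hx (hQpos x h) (hkey x hF) with h1 | ⟨-, -, h1⟩
        · rw [hT] at h1; exact absurd h1 (lt_irrefl _)
        · rcases h1 with h1 | h1 | h1
          · exact absurd hg1 h1
          · exact absurd hg2 h1
          · exact h1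
      · rcases cert.neg x hx (hQneg x (by linarith)) (hkey x hF) with h1 | ⟨-, -, h1⟩
        · rw [hT] at h1; exact absurd h1 (lt_irrefl _)
        · rcases h1 with h1 | h1 | h1
          · exact absurd hg1 h1
          · exact absurd hg2 h1
          · exact h1
    by_contra hcon
    push Not at hcon
    have k1 := hcon (1, 0)
    have k2 := hcon (0, 1)
    rw [ddW hQ, div_eq_zero_iff] at k1 k2
    have k1' := k1.resolve_right (hs _ _).ne'
    have k2' := k2.resolve_right (hs _ _).ne'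
    simp at k1' k2'
    have d1 : detQ Q N x * k.1 = 0 := by
      unfold detQ
      linear_combination q22 Q N x * k1' - q12 Q N x * k2'
    have d2 : detQ Q N x * k.2 = 0 := by
      unfold detQ
      linear_combination q11 Q N x * k2' - q12 Q N x * k1'
    exact hk (Prod.ext ((mul_eq_zero.1 d1).resolve_left hdet)
      ((mul_eq_zero.1 d2).resolve_left hdet))

end

end Pool.Agent.H81.HD.T.POLY
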